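import Mathlib
import Pool.Agent.H8.KA.Lib.R_seed8.H98R2.Ev.Defs
import Pool.Agent.H8.KA.Lib.R_seed8.H98R2.Ev.T1

set_option autoImplicit false

/-! Non-evasive families are acyclic (task E2). -/

namespace Pool.Agent.H98R2.Ev

open Finset

universe u

section Closure
variable {X : Type u} [DecidableEq X] [PartialOrder X] [Fintype X] {F : Type} [CommRing F]

/-- one step: adding the element `s` to `R` when the elements of `R` comparable to `s` form a
cone with apex `a ≥ s`. -/
theorem acyc_insert (R : Finset X) (s a : X) (hR : Acyc F R) (ha : a ∈ R) (hsa : s ≤ a)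
    (h : ∀ t ∈ R, (t ≤ s ∨ s ≤ t) → t ≤ a ∨ a ≤ t) : Acyc F (insert s R) := by
  classical
  set C : Finset X := (insert s R).filter (fun t => t ≤ s ∨ s ≤ t) with hC
  have h1 : R ∪ C = insert s R := by
    ext t
    simp only [mem_union, hC, mem_filter, mem_insert]
    constructor
    · rintro (h | h)
      · exact Or.inr h
      · exact h.1
    · rintro (h | h)
      · exact Or.inr ⟨Or.inl h, Or.inl h.le⟩
      · exact Or.inl h
  by_cases hs : s ∈ R
  · rw [insert_eq_of_mem hs]; exact hR
  rw [← h1]
  refine acyc_union R C ?_ hR ?_ ?_
  · intro σ hσ
    by_cases hsσ : s ∈ σ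
    · right
      intro t ht
      have ht' := hσ.1 ht
      rw [h1] at ht'
      refine mem_filter.2 ⟨ht', ?_⟩
      by_cases hts : t = s
      · exact Or.inl hts.le
      · exact hσ.2 (by exact_mod_cast ht) (by exact_mod_cast hsσ) hts
    · left
      intro t ht
      have ht' := hσ.1 ht
      rw [h1, mem_insert] at ht'
      rcases ht' with rfl | ht'
      · exact absurd ht hsσ
      · exact ht'
  · refine acyc_cone C s ?_ ?_
    · exact mem_filter.2 ⟨mem_insert_self _ _, Or.inl le_rfl⟩
    · intro t ht
      exact (mem_filter.1 ht).2
  · refine acyc_cone (R ∩ C) a ?_ ?_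
    · exact mem_inter.2 ⟨ha, mem_filter.2 ⟨mem_insert_of_mem ha, Or.inr hsa⟩⟩
    · intro t ht
      rw [mem_inter] at ht
      exact h t ht.1 (mem_filter.1 ht.2).2

/-- closure operators: `Q` is acyclic if the set of closed elements of `Q` is. -/
theorem acyc_closure (Q : Finset X) (f : X → X) (hf : ∀ y ∈ Q, f y ∈ Q) (hle : ∀ y, y ≤ f y)
    (hmono : ∀ y z, y ≤ z → f y ≤ f z) (hidem : ∀ y, f (f y) = f y)
    (h0 : Acyc F (Q.filter (fun y => f y = y))) : Acyc F Q := by
  classical
  -- induction on the size of a lower set L of non-closed elements
  have key : ∀ (n : ℕ) (L : Finset X), L.card = n → (∀ y ∈ L, y ∈ Q ∧ f y ≠ y) →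
      (∀ y ∈ L, ∀ z ∈ Q, f z ≠ z → z ≤ y → z ∈ L) →
      Acyc F (Q.filter (fun y => f y = y) ∪ L) := by
    intro n
    induction n with
    | zero =>
      intro L hL _ _
      rw [card_eq_zero] at hL
      subst hL
      simpa using h0
    | succ n ih =>
      intro L hL hLQ hdown
      have hne : L.Nonempty := by
        rw [← card_pos, hL]; exact Nat.succ_pos n
      obtain ⟨s, hs⟩ := L.exists_maximal hne
      have hsL : s ∈ L := hs.prop
      have hmax : ∀ t ∈ L, s ≤ t → t = s := fun t ht hst => (hs.eq_of_le ht hst).symm
      have hIH := ih (L.erase s) (by rw [card_erase_of_mem hsL, hL]; rfl)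
        (fun y hy => hLQ y (mem_of_mem_erase hy)) (by
          intro y hy z hz hfz hzy
          rw [mem_erase] at hy ⊢
          refine ⟨?_, hdown y hy.2 z hz hfz hzy⟩
          rintro rfl
          exact hy.1 (hmax y hy.2 hzy))
      have heq : Q.filter (fun y => f y = y) ∪ L
          = insert s (Q.filter (fun y => f y = y) ∪ L.erase s) := by
        rw [← union_insert, insert_erase hsL]
      rw [heq]
      refine acyc_insert _ s (f s) hIH ?_ (hle s) ?_
      · exact mem_union_left _ (mem_filter.2 ⟨hf s (hLQ s hsL).1, hidem s⟩)
      · intro t ht hts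
        rcases hts with hts | hts
        · exact Or.inl (hts.trans (hle s))
        · right
          rw [mem_union, mem_filter, mem_erase] at ht
          rcases ht with ht | ht
          · rw [← ht.2]
            exact hmono s t hts
          · exact absurd (hmax t ht.2 hts) ht.1
  have hfin := key _ (Q.filter (fun y => f y ≠ y)) rfl ?_ ?_
  · have : Q.filter (fun y => f y = y) ∪ Q.filter (fun y => f y ≠ y) = Q := by
      exact filter_union_filter_not_eq _ _
    rwa [this] at hfin
  · intro y hy
    simpa using hy
  · intro y _ z hz hfz _
    exact mem_filter.2 ⟨hz, hfz⟩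

end Closure

section T2
variable {E : Type u} [DecidableEq E] [Fintype E] {F : Type} [CommRing F]

/-- the star of a vertex is acyclic -/
theorem star_acyc (A : Finset E) (D : Finset E → Prop) (x : E) (hx : x ∈ A)
    (hDx : D {x}) :
    Acyc F (X := Finset E) (by classical exact
      (univ.filter (fun S : Finset E => S ⊆ A ∧ S.Nonempty ∧ D (insert x S)))) := by
  classical
  refine acyc_closure _ (fun S => insert x S) ?_ ?_ ?_ ?_ ?_
  · intro S hS
    simp only [mem_filter, mem_univ, true_and] at hS ⊢
    refine ⟨insert_subset hx hS.1, insert_nonempty _ _, ?_⟩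
    rw [insert_idem]; exact hS.2.2
  · intro S
    exact subset_insert x S
  · intro S T hST
    exact insert_subset_insert x hST
  · intro S
    exact insert_idem x S
  · refine acyc_cone _ {x} ?_ ?_
    · simp only [mem_filter, mem_univ, true_and]
      refine ⟨⟨singleton_subset_iff.2 hx, singleton_nonempty x, ?_⟩, ?_⟩
      · simpa using hDx
      · simp
    · intro S hS
      right
      simp only [mem_filter, mem_univ, true_and] at hS
      have : x ∈ S := by
        rw [← hS.2]; exact mem_insert_self x S
      exact singleton_subset_iff.2 this

theorem ne_acyc (A : Finset E) (D : Finset E → Prop)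
    (hdown : ∀ S T, S ⊆ T → T ⊆ A → D T → D S) (h : NE A D) :
    (∀ S, S ⊆ A → ¬ D S) ∨ Acyc F (faces A D) := by
  classical
  induction h with
  | const A D hA h =>
    rcases h with h | h
    · right
      refine acyc_cone _ A ?_ ?_
      · simp only [faces, mem_filter, mem_univ, true_and]
        exact ⟨subset_rfl, hA, h A subset_rfl⟩
      · intro S hS
        simp only [faces, mem_filter, mem_univ, true_and] at hS
        exact Or.inl hS.1
    · exact Or.inl h
  | node A D x hx h0 h1 ih0 ih1 =>
    have ih0' := ih0 (fun S T hST hT hDT => hdown S T hST (hT.trans (erase_subset _ _)) hDT)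
    have ih1' := ih1 (fun S T hST hT hDT => hdown (insert x S) (insert x T)
      (insert_subset_insert x hST) (insert_subset hx (hT.trans (erase_subset _ _))) hDT)
    rcases ih0' with hv | hac
    · left
      intro S hS hDS
      exact hv (S.erase x) (erase_subset_erase x hS) (hdown _ S (erase_subset _ _) hS hDS)
    · right
      by_cases hvoid : ∀ S, S ⊆ A.erase x → ¬ D (insert x S)
      · have : faces A D = faces (A.erase x) D := by
          ext S
          simp only [faces, mem_filter, mem_univ, true_and]
          constructor
          · rintro ⟨hs1, hs2, hs3⟩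
            refine ⟨?_, hs2, hs3⟩
            intro y hy
            rw [mem_erase]
            refine ⟨?_, hs1 hy⟩
            intro hyx
            subst hyx
            refine hvoid (S.erase y) (erase_subset_erase y hs1) ?_
            rw [insert_erase hy]; exact hs3
          · rintro ⟨h1, h2, h3⟩
            exact ⟨h1.trans (erase_subset _ _), h2, h3⟩
        rw [this]; exact hac
      · have hlk := ih1'.resolve_left hvoid
        push Not at hvoid
        obtain ⟨S0, hS0, hDS0⟩ := hvoid
        have hDx : D {x} := by
          refine hdown {x} (insert x S0) ?_ (insert_subset hx (hS0.trans (erase_subset _ _))) hDS0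
          exact singleton_subset_iff.2 (mem_insert_self _ _)
        have hst := star_acyc (F := F) A D x hx hDx
        set St : Finset (Finset E) :=
          univ.filter (fun S : Finset E => S ⊆ A ∧ S.Nonempty ∧ D (insert x S)) with hSt
        have hU : faces (A.erase x) D ∪ St = faces A D := by
          ext S
          simp only [faces, hSt, mem_union, mem_filter, mem_univ, true_and]
          constructor
          · rintro (⟨h1, h2, h3⟩ | ⟨h1, h2, h3⟩)
            · exact ⟨h1.trans (erase_subset _ _), h2, h3⟩
            · exact ⟨h1, h2, hdown S (insert x S) (subset_insert _ _) (insert_subset hx h1) h3⟩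
          · rintro ⟨h1, h2, h3⟩
            by_cases hxS : x ∈ S
            · right
              refine ⟨h1, h2, ?_⟩
              rw [insert_eq_of_mem hxS]; exact h3
            · left
              refine ⟨?_, h2, h3⟩
              intro y hy
              rw [mem_erase]
              refine ⟨?_, h1 hy⟩
              rintro rfl
              exact hxS hy
        have hI : faces (A.erase x) D ∩ St = faces (A.erase x) (fun S => D (insert x S)) := by
          ext S
          simp only [faces, hSt, mem_inter, mem_filter, mem_univ, true_and]
          constructor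
          · rintro ⟨⟨h1, h2, h3⟩, ⟨h4, h5, h6⟩⟩
            exact ⟨h1, h2, h6⟩
          · rintro ⟨h1, h2, h3⟩
            have h1' := h1.trans (erase_subset x A)
            exact ⟨⟨h1, h2, hdown S (insert x S) (subset_insert _ _) (insert_subset hx h1') h3⟩,
              h1', h2, h3⟩
        rw [← hU]
        refine acyc_union _ _ ?_ hac (by convert hst) (by rw [hI]; exact hlk)
        intro σ hσ
        by_cases hxσ : ∀ S ∈ σ, x ∉ S
        · left
          intro S hS
          have := hσ.1 hS
          rw [hU] at this
          simp only [faces, mem_filter, mem_univ, true_and] at this ⊢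
          refine ⟨?_, this.2⟩
          intro y hy
          rw [mem_erase]
          refine ⟨?_, this.1 hy⟩
          rintro rfl
          exact hxσ S hS hy
        · right
          push Not at hxσ
          obtain ⟨T, hT, hxT⟩ := hxσ
          intro S hS
          have hS' := hσ.1 hS
          have hT' := hσ.1 hT
          rw [hU] at hS' hT'
          simp only [faces, hSt, mem_filter, mem_univ, true_and] at hS' hT' ⊢
          refine ⟨hS'.1, hS'.2.1, ?_⟩
          by_cases hxS : x ∈ S
          · rw [insert_eq_of_mem hxS]; exact hS'.2.2
          · have hcmp : S ≤ T ∨ T ≤ S :=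
              hσ.2 (by exact_mod_cast hS) (by exact_mod_cast hT) (by rintro rfl; exact hxS hxT)
            rcases hcmp with h | h
            · exact hdown _ T (insert_subset hxT h) hT'.1 hT'.2.2
            · exact absurd (h hxT) hxS

end T2

end Pool.Agent.H98R2.Ev
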