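import Mathlib
import Pool.Agent.H8.KA.Lib.R_seed8.H98R2.Ev.Defs

set_option autoImplicit false

namespace Pool.Agent.H98R2.Ev

open Finset

universe u

/-! Task T12, part a: transport lemmas, duality, and `evasive_core` conditional on T3, T11. -/

section T12

theorem NE_congr {E : Type u} [DecidableEq E] {A : Finset E} {D : Finset E → Prop} (h : NE A D) :
    ∀ D' : Finset E → Prop, (∀ S, S ⊆ A → (D S ↔ D' S)) → NE A D' := by
  induction h with
  | const A D hA h =>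
    intro D' hD
    refine NE.const A D' hA ?_
    rcases h with h | h
    · exact Or.inl fun S hS => (hD S hS).1 (h S hS)
    · exact Or.inr fun S hS h' => h S hS ((hD S hS).2 h')
  | node A D x hx h0 h1 ih0 ih1 =>
    intro D' hD
    refine NE.node A D' x hx (ih0 D' fun S hS => hD S (hS.trans (erase_subset _ _))) 
      (ih1 _ fun S hS => hD _ ?_)
    exact insert_subset hx (hS.trans (erase_subset _ _))

theorem NE_map {E E' : Type u} [DecidableEq E] [DecidableEq E'] (f : E ≃ E') {A : Finset E}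
    {D : Finset E → Prop} (h : NE A D) :
    NE (A.map f.toEmbedding) (fun S => D (S.map f.symm.toEmbedding)) := by
  induction h with
  | const A D hA h =>
    refine NE.const _ _ (hA.map) ?_
    have key : ∀ S : Finset E', S ⊆ A.map f.toEmbedding → S.map f.symm.toEmbedding ⊆ A := by
      intro S hS x hx
      rw [mem_map_equiv] at hx
      have := hS hx
      rw [mem_map_equiv] at this
      simpa using this
    rcases h with h | h
    · exact Or.inl fun S hS => h _ (key S hS)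
    · exact Or.inr fun S hS => h _ (key S hS)
  | node A D x hx h0 h1 ih0 ih1 =>
    have he : (A.map f.toEmbedding).erase (f x) = (A.erase x).map f.toEmbedding := by
      rw [map_erase]; rfl
    refine NE.node _ _ (f x) (mem_map_of_mem _ hx) ?_ ?_
    · rw [he]; exact ih0
    · rw [he]
      refine NE_congr ih1 _ fun S hS => ?_
      have : (insert (f x) S).map f.symm.toEmbedding = insert x (S.map f.symm.toEmbedding) := by
        rw [map_insert]; simp
      rw [this]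

/-- bijection of potential edges from a bijection of vertices -/
def ee {V W : Type} [DecidableEq V] [DecidableEq W] (e : V ≃ W) : EV V ≃ EV W where
  toFun x := ⟨Sym2.map e x.1, by
    intro h
    apply x.2
    revert h
    refine Sym2.ind (fun a b => ?_) x.1
    simp [Sym2.map_mk]⟩
  invFun x := ⟨Sym2.map e.symm x.1, by
    intro h
    apply x.2
    revert h
    refine Sym2.ind (fun a b => ?_) x.1
    simp [Sym2.map_mk]⟩
  left_inv x := by
    apply Subtype.ext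
    simp [Sym2.map_map]
  right_inv x := by
    apply Subtype.ext
    simp [Sym2.map_map]

theorem toG_edgeSet {V : Type} [DecidableEq V] (S : Finset (EV V)) :
    (toG S).edgeSet = Subtype.val '' (S : Set (EV V)) := by
  unfold toG
  rw [SimpleGraph.edgeSet_fromEdgeSet]
  ext e
  constructor
  · rintro ⟨⟨h, h'⟩, -⟩
    exact ⟨⟨e, h⟩, h', rfl⟩
  · rintro ⟨⟨e, h⟩, h', rfl⟩
    exact ⟨⟨h, h'⟩, h⟩

theorem toG_adj {V : Type} [DecidableEq V] (S : Finset (EV V)) (a b : V) :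
    (toG S).Adj a b ↔ ∃ h : ¬ (s(a, b)).IsDiag, (⟨s(a, b), h⟩ : EV V) ∈ S := by
  rw [← SimpleGraph.mem_edgeSet, toG_edgeSet]
  constructor
  · rintro ⟨⟨e, h⟩, h', rfl⟩
    exact ⟨h, h'⟩
  · rintro ⟨h, h'⟩
    exact ⟨_, h', rfl⟩

theorem toG_card {V : Type} [DecidableEq V] (S : Finset (EV V)) :
    (toG S).edgeSet.ncard = S.card := by
  rw [toG_edgeSet, Set.ncard_image_of_injective _ Subtype.val_injective, Set.ncard_coe_finset]

theorem toG_map {V W : Type} [DecidableEq V] [DecidableEq W] (e : V ≃ W) (S : Finset (EV V)) :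
    toG (S.map (ee e).toEmbedding) = (toG S).map e.toEmbedding := by
  ext a b
  rw [toG_adj, SimpleGraph.map_adj]
  constructor
  · rintro ⟨h, h'⟩
    rw [mem_map_equiv] at h'
    refine ⟨e.symm a, e.symm b, ?_, by simp, by simp⟩
    rw [toG_adj]
    refine ⟨?_, ?_⟩
    · intro hd
      apply h
      simpa [Sym2.mk_isDiag_iff] using hd
    · exact h'
  · rintro ⟨u, v, huv, rfl, rfl⟩
    rw [toG_adj] at huv
    obtain ⟨h, h'⟩ := huv
    refine ⟨?_, ?_⟩
    · intro hd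
      apply h
      simpa [Sym2.mk_isDiag_iff] using hd
    · rw [mem_map_equiv]
      convert h' using 1
      apply Subtype.ext
      simp [ee]

theorem toG_mono {V : Type} [DecidableEq V] {S T : Finset (EV V)} (h : S ⊆ T) :
    toG S ≤ toG T := by
  intro a b
  rw [toG_adj, toG_adj]
  rintro ⟨h1, h2⟩
  exact ⟨h1, h h2⟩

theorem toG_empty {V : Type} [DecidableEq V] : toG (∅ : Finset (EV V)) = ⊥ := by
  ext a b
  rw [toG_adj]
  simp

theorem ee_ep {V W : Type} [DecidableEq V] [DecidableEq W] (e : V ≃ W) (π : Equiv.Perm W)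
    (S : Finset (EV W)) :
    (S.map (ep π).toEmbedding).map (ee e).symm.toEmbedding =
      (S.map (ee e).symm.toEmbedding).map (ee (e.trans (π.trans e.symm))).toEmbedding := by
  rw [Finset.map_map, Finset.map_map]
  congr 1
  ext x
  simp [ee, ep, Sym2.map_map]

theorem iter_eq {n : ℕ} (s : Finset (Sym2 (Fin n)) → SimpleGraph (Fin n) → Sym2 (Fin n))
    (hs : ∀ (Q : Finset (Sym2 (Fin n))) (G H : SimpleGraph (Fin n)),
      (∀ e ∈ Q, (e ∈ G.edgeSet ↔ e ∈ H.edgeSet)) → s Q G = s Q H)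
    (A B : SimpleGraph (Fin n)) (m : ℕ)
    (h : ∀ e ∈ (fun Q : Finset (Sym2 (Fin n)) => insert (s Q A) Q)^[m]
        (∅ : Finset (Sym2 (Fin n))), (e ∈ A.edgeSet ↔ e ∈ B.edgeSet)) :
    (fun Q : Finset (Sym2 (Fin n)) => insert (s Q B) Q)^[m] (∅ : Finset (Sym2 (Fin n))) =
      (fun Q : Finset (Sym2 (Fin n)) => insert (s Q A) Q)^[m] (∅ : Finset (Sym2 (Fin n))) := by
  induction m with
  | zero => rfl
  | succ m ih =>
    rw [Function.iterate_succ_apply', Function.iterate_succ_apply']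
    rw [Function.iterate_succ_apply'] at h
    have h' : ∀ e ∈ (fun Q : Finset (Sym2 (Fin n)) => insert (s Q A) Q)^[m]
        (∅ : Finset (Sym2 (Fin n))), (e ∈ A.edgeSet ↔ e ∈ B.edgeSet) :=
      fun e he => h e (mem_insert_of_mem he)
    rw [ih h']
    show insert _ _ = insert _ _
    rw [hs _ A B h']

theorem compl_edge {n : ℕ} (G : SimpleGraph (Fin n)) (e : Sym2 (Fin n)) :
    e ∈ Gᶜ.edgeSet ↔ (¬ e.IsDiag ∧ e ∉ G.edgeSet) := by
  induction e using Sym2.ind with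
  | _ a b =>
    rw [SimpleGraph.mem_edgeSet, SimpleGraph.mem_edgeSet, SimpleGraph.compl_adj,
      Sym2.mk_isDiag_iff]

theorem compl_agree {n : ℕ} {G H : SimpleGraph (Fin n)} {e : Sym2 (Fin n)}
    (h : e ∈ G.edgeSet ↔ e ∈ H.edgeSet) : e ∈ Gᶜ.edgeSet ↔ e ∈ Hᶜ.edgeSet := by
  rw [compl_edge, compl_edge, h]

/-- duality: `P ↦ (G ↦ ¬ P Gᶜ)` -/
theorem dual_strategy (n : ℕ) (P : SimpleGraph (Fin n) → Prop)
    (h : ∀ s : Finset (Sym2 (Fin n)) → SimpleGraph (Fin n) → Sym2 (Fin n),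
      (∀ (Q : Finset (Sym2 (Fin n))) (G H : SimpleGraph (Fin n)),
        (∀ e ∈ Q, (e ∈ G.edgeSet ↔ e ∈ H.edgeSet)) → s Q G = s Q H) →
      ∃ G H : SimpleGraph (Fin n),
        (∀ e ∈ (fun Q : Finset (Sym2 (Fin n)) => insert (s Q G) Q)^[n.choose 2 - 1]
          (∅ : Finset (Sym2 (Fin n))), (e ∈ G.edgeSet ↔ e ∈ H.edgeSet)) ∧
          (¬ P Gᶜ) ∧ ¬ (¬ P Hᶜ))
    (s : Finset (Sym2 (Fin n)) → SimpleGraph (Fin n) → Sym2 (Fin n))
    (hs : ∀ (Q : Finset (Sym2 (Fin n))) (G H : SimpleGraph (Fin n)),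
      (∀ e ∈ Q, (e ∈ G.edgeSet ↔ e ∈ H.edgeSet)) → s Q G = s Q H) :
    ∃ G H : SimpleGraph (Fin n),
      (∀ e ∈ (fun Q : Finset (Sym2 (Fin n)) => insert (s Q G) Q)^[n.choose 2 - 1]
        (∅ : Finset (Sym2 (Fin n))), (e ∈ G.edgeSet ↔ e ∈ H.edgeSet)) ∧ P G ∧ ¬ P H := by
  obtain ⟨G, H, hGH, hG, hH⟩ := h (fun Q G => s Q Gᶜ) (fun Q G H hQ =>
    hs Q Gᶜ Hᶜ fun e he => compl_agree (hQ e he))
  refine ⟨Hᶜ, Gᶜ, ?_, not_not.1 hH, hG⟩
  have key : ∀ e ∈ (fun Q : Finset (Sym2 (Fin n)) => insert (s Q Gᶜ) Q)^[n.choose 2 - 1]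
        (∅ : Finset (Sym2 (Fin n))), (e ∈ Gᶜ.edgeSet ↔ e ∈ Hᶜ.edgeSet) :=
    fun e he => compl_agree (hGH e he)
  rw [iter_eq s hs Gᶜ Hᶜ _ key]
  exact fun e he => (key e he).symm

/-- `evasive_core` from the statements of T3 and T11 -/
theorem evasive_core_of
    (hT3 : ∀ (n : ℕ) (_ : 2 ≤ n) (P : SimpleGraph (Fin n) → Prop)
      (s : Finset (Sym2 (Fin n)) → SimpleGraph (Fin n) → Sym2 (Fin n))
      (_ : ∀ (Q : Finset (Sym2 (Fin n))) (G H : SimpleGraph (Fin n)),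
        (∀ e ∈ Q, (e ∈ G.edgeSet ↔ e ∈ H.edgeSet)) → s Q G = s Q H)
      (_ : ¬ ∃ G H : SimpleGraph (Fin n),
        (∀ e ∈ (fun Q : Finset (Sym2 (Fin n)) => insert (s Q G) Q)^[n.choose 2 - 1]
          (∅ : Finset (Sym2 (Fin n))), (e ∈ G.edgeSet ↔ e ∈ H.edgeSet)) ∧ P G ∧ ¬ P H),
      NE (univ : Finset (EV (Fin n))) (fun S => ¬ P (toG S)))
    (hT11 : ∀ {k p r : ℕ} [NeZero k] [Fact p.Prime] [Fact r.Prime]
      (q : ℕ) [Fact q.Prime] (_ : q ∣ r - 1) (_ : p < r) (_ : k < r)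
      (D : Finset (EV (VV k p r)) → Prop) (_ : ∀ S T, S ⊆ T → D T → D S) (_ : D ∅)
      (_ : ∀ (π : Equiv.Perm (VV k p r)) S, D S → D (S.map (ep π).toEmbedding))
      (N : ℕ) (_ : N ≤ r * q) (_ : N ≤ k * p * r) (_ : N ≤ k * p * p)
      (_ : N ≤ p * Nat.lcm k (p - 1)) (_ : ∀ S, D S → 2 * S.card < N), ¬ NE univ D)
    (n k p r q : ℕ) (hp : p.Prime) (hr : r.Prime) (hq : q.Prime) (hk : 1 ≤ k)
    (hn : n = k * p + r) (hqr : q ∣ r - 1) (hrp : p < r) (hrk : k < r)
    (N : ℕ) (h1 : N ≤ r * q) (h2 : N ≤ k * p * r) (h3 : N ≤ k * p * p)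
    (h4 : N ≤ p * Nat.lcm k (p - 1))
    (P : SimpleGraph (Fin n) → Prop) (hmono : ∀ G H : SimpleGraph (Fin n), G ≤ H → P G → P H)
    (hiso : ∀ (σ : Fin n ≃ Fin n) (G : SimpleGraph (Fin n)), P G → P (G.map σ.toEmbedding))
    (hne : ∃ G : SimpleGraph (Fin n), ¬ P G)
    (hsparse : ∀ G : SimpleGraph (Fin n), N ≤ 2 * G.edgeSet.ncard → P G)
    (s : Finset (Sym2 (Fin n)) → SimpleGraph (Fin n) → Sym2 (Fin n))
    (hs : ∀ (Q : Finset (Sym2 (Fin n))) (G H : SimpleGraph (Fin n)),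
      (∀ e ∈ Q, (e ∈ G.edgeSet ↔ e ∈ H.edgeSet)) → s Q G = s Q H) :
    ∃ G H : SimpleGraph (Fin n),
      (∀ e ∈ (fun Q : Finset (Sym2 (Fin n)) => insert (s Q G) Q)^[n.choose 2 - 1]
        (∅ : Finset (Sym2 (Fin n))), (e ∈ G.edgeSet ↔ e ∈ H.edgeSet)) ∧ P G ∧ ¬ P H := by
  by_contra hbad
  have : Fact p.Prime := ⟨hp⟩
  have : Fact r.Prime := ⟨hr⟩
  have : Fact q.Prime := ⟨hq⟩
  have : NeZero k := ⟨by omega⟩
  have hn2 : 2 ≤ n := by
    have := hr.two_le
    rw [hn]; omega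
  have hNE := hT3 n hn2 P s hs hbad
  have hcard : Fintype.card (Fin n) = Fintype.card (VV k p r) := by
    simp [VV, ZMod.card, hn]
  let e : Fin n ≃ VV k p r := Fintype.equivOfCardEq hcard
  have hNE' := NE_map (ee e) hNE
  rw [Finset.map_univ_equiv] at hNE'
  refine hT11 q hqr hrp hrk (fun S => ¬ P (toG (S.map (ee e).symm.toEmbedding)))
    ?_ ?_ ?_ N h1 h2 h3 h4 ?_ hNE'
  · intro S T hST hT hS
    exact hT (hmono _ _ (toG_mono (map_subset_map.2 hST)) hS)
  · rw [Finset.map_empty, toG_empty]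
    obtain ⟨G, hG⟩ := hne
    intro h
    exact hG (hmono _ _ bot_le h)
  · intro π S hS h
    apply hS
    rw [ee_ep, toG_map] at h
    have h' := hiso (e.trans (π.trans e.symm)).symm _ h
    rw [SimpleGraph.map_map] at h'
    convert h' using 1
    conv_lhs => rw [← SimpleGraph.map_id (G := toG (S.map (ee e).symm.toEmbedding))]
    congr 1
    ext x
    simp
  · intro S hS
    by_contra hlt
    push Not at hlt
    apply hS
    apply hsparse
    rw [toG_card, Finset.card_map]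
    exact hlt

end T12

end Pool.Agent.H98R2.Ev
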